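import Pool.Agent.R42.FQ.Core
import Pool.Agent.R42.FQ.Two
import Pool.Agent.R42.FQ.Upper
import Pool.Agent.R42.FQ.Cay
import Pool.Agent.R42.FQ.Constr
import Pool.Agent.R42.FQ.Num
import Pool.Agent.R42.FQ.Final

/-!
# MP_1aba1b_co: `q(k) = ⌊(k-1)/3⌋` for every `k ≥ 4`
-/

namespace Pool.Agent.Results.MP_1aba1b_co.Exact

open MP_1aba1b

/-- For every `k ≥ 4` the largest bounded position `q(k)` of `k`-flip sequences is
`⌊(k-1)/3⌋`. -/
theorem result : ∀ k : ℕ, 4 ≤ k → IsGreatest {q : ℕ | PosBounded k q} ((k - 1) / 3) :=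
  final (upper two) (constr (cayley two)) numeric

end Pool.Agent.Results.MP_1aba1b_co.Exact
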